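import Mathlib
import Pool.Agent.Helper297.Drc
import Pool.Agent.Helper297.Family

/-!
# MP_cecf76_co: large pairwise intersecting subfamilies of dense set systems

`f n m c ε` is the largest number `f` such that among any `m` subsets of an `n`-set, each with more than
`c n` elements, there are `f` any two of which have more than `ε n` common elements.

* The conjecture `f(n,n,c,ε) > η n ^ (1/2)` is true for every `0 < c ≤ 1/2` and every `0 < ε < c ^ 3`; more
  generally `f(n,m,c,ε) ≥ η m min(m, 2^n) ^ (-1/s)` for every `s ≥ 1` and every `0 < ε < c ^ (s + 1)`.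
* The bound `f(n,m,c,ε) ≥ η m` for `m < n` is false for every `0 < c ≤ 1/2` and every `ε > 0`: there are
  `a, C > 0` with `f(n,m,c,ε) ≤ C m min(m, 2^n) ^ (-a)` for all `n, m`.
-/

set_option autoImplicit false

namespace Pool.Agent.Results.MP_cecf76_co.Growth

open Finset

/-- The index set `I` is `ε`-intersecting for the sequence `A` of subsets of an `n`-set:
`|A_i ∩ A_j| > ε n` for all distinct `i, j ∈ I`. -/
def EpsIntersecting {n m : ℕ} (A : Fin m → Finset (Fin n)) (ε : ℝ) (I : Finset (Fin m)) : Prop :=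
  ∀ i ∈ I, ∀ j ∈ I, i ≠ j → ε * (n : ℝ) < ((A i ∩ A j).card : ℝ)

/-- The sizes `r` such that every sequence `A_1, ..., A_m` of subsets of an `n`-set with
`|A_k| > c n` for all `k` has an `ε`-intersecting index set of size `r`. -/
def sizes (n m : ℕ) (c ε : ℝ) : Set ℕ :=
  {r | ∀ A : Fin m → Finset (Fin n), (∀ k, c * (n : ℝ) < ((A k).card : ℝ)) →
    ∃ I : Finset (Fin m), EpsIntersecting A ε I ∧ I.card = r}

/-- `f(n,m,c,ε)`: the largest member of `sizes n m c ε`. -/
noncomputable def f (n m : ℕ) (c ε : ℝ) : ℕ := sSup (sizes n m c ε)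

theorem f_isGreatest {n m : ℕ} {c ε : ℝ} (hn : 1 ≤ n) (hc : c < 1) :
    IsGreatest (sizes n m c ε) (f n m c ε) := by
  have hne : (sizes n m c ε).Nonempty :=
    ⟨0, fun _ _ => ⟨∅, fun i hi => absurd hi (notMem_empty i), card_empty⟩⟩
  have hbd : BddAbove (sizes n m c ε) := by
    refine ⟨m, ?_⟩
    intro r hr
    obtain ⟨I, -, hI⟩ := hr (fun _ => univ) (by
      intro _
      simp only [Finset.card_univ, Fintype.card_fin]
      have : (1 : ℝ) ≤ (n : ℝ) := by exact_mod_cast hn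
      nlinarith)
    rw [← hI]
    have := Finset.card_le_univ I
    simpa using this
  exact ⟨Nat.sSup_mem hne hbd, fun x hx => le_csSup hbd hx⟩

theorem lower {c : ℝ} (hc0 : 0 < c) (hc1 : c < 1) {s : ℕ} (hs : 1 ≤ s) {ε : ℝ}
    (hε : ε < c ^ (s + 1)) {n m : ℕ} (hn : 1 ≤ n) (hm : 1 ≤ m) :
    (c / 4 * (s : ℝ)⁻¹) * m * (min (m : ℝ) (2 ^ n)) ^ (-(s : ℝ)⁻¹) ≤ (f n m c ε : ℝ) := by
  classical
  have hnR : (1 : ℝ) ≤ (n : ℝ) := by exact_mod_cast hn
  have hmR : (1 : ℝ) ≤ (m : ℝ) := by exact_mod_cast hm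
  have hsR : (1 : ℝ) ≤ (s : ℝ) := by exact_mod_cast hs
  have hsinv : 0 < (s : ℝ)⁻¹ := by positivity
  have : Nonempty (Fin n) := ⟨⟨0, hn⟩⟩
  set W : ℝ := min (m : ℝ) (2 ^ n) with hW
  have hW1 : 1 ≤ W := le_min hmR (one_le_pow₀ (by norm_num))
  set β : ℝ := c / 4 * (s : ℝ)⁻¹ with hβ
  have hβpos : 0 < β := by positivity
  -- the target size
  set r : ℕ := ⌈β * m * W ^ (-(s : ℝ)⁻¹)⌉₊ with hr
  have hmem : r ∈ sizes n m c ε := by
    intro A hA
    let U : Finset (Finset (Fin n)) := univ.image A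
    have hU : ∀ S ∈ U, c * (n : ℝ) < (S.card : ℝ) := by
      intro S hS
      obtain ⟨i, _, rfl⟩ := Finset.mem_image.mp hS
      exact hA i
    obtain ⟨K, col, hK, hcol1, hcol2⟩ := Helper297.Drc.greedy
      (fun S T : Finset (Fin n) => ε * (n : ℝ) < ((S ∩ T).card : ℝ))
      (b := c / 4) (δ := (s : ℝ)⁻¹) (by positivity) hsinv (inv_le_one_of_one_le₀ hsR) U
      (by
        intro J hJU hJ
        obtain ⟨I, hIJ, hI1, hI2⟩ := Helper297.Drc.drc_power hc0 hc1 hs J hJ
          (fun S : Finset (Fin n) => S) (by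
            intro S hS
            have := hU S (hJU hS)
            simpa using this.le)
        refine ⟨I, hIJ, hI1, ?_⟩
        intro S hS T hT hST
        have h1 := hI2 S hS T hT hST
        simp only [Fintype.card_fin] at h1
        have h2 : ε * (n : ℝ) ≤ c ^ (s + 1) * (n : ℝ) :=
          mul_le_mul_of_nonneg_right hε.le (by linarith)
        linarith) U.card U (Finset.Subset.refl U) rfl
    have hUW : (U.card : ℝ) ≤ W := by
      apply le_min
      · have : U.card ≤ (univ : Finset (Fin m)).card := Finset.card_image_le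
        simp only [Finset.card_univ, Fintype.card_fin] at this
        exact_mod_cast this
      · have : U.card ≤ Fintype.card (Finset (Fin n)) := Finset.card_le_univ U
        simp only [Fintype.card_finset, Fintype.card_fin] at this
        exact_mod_cast this
    have hKW : (K : ℝ) ≤ β⁻¹ * W ^ ((s : ℝ)⁻¹) := by
      refine hK.trans ?_
      apply mul_le_mul_of_nonneg_left _ (by positivity)
      exact Real.rpow_le_rpow (by positivity) hUW hsinv.le
    -- the largest class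
    have hsum : m = ∑ b ∈ range K, (univ.filter (fun i : Fin m => col (A i) = b)).card := by
      have := Finset.card_eq_sum_card_fiberwise (s := (univ : Finset (Fin m)))
        (t := range K) (f := fun i => col (A i)) (by
          intro i _
          exact mem_coe.2 (mem_range.2 (hcol1 (A i) (mem_image_of_mem A (mem_univ i)))))
      simpa using this
    have hclass : ∃ b ∈ range K, β * m * W ^ (-(s : ℝ)⁻¹) ≤
        ((univ.filter (fun i : Fin m => col (A i) = b)).card : ℝ) := by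
      by_contra hcon
      push Not at hcon
      have hKpos : 0 < K := by
        rcases Nat.eq_zero_or_pos K with h0 | h0
        · rw [h0] at hsum
          simp at hsum
          omega
        · exact h0
      have h1 : (m : ℝ) < ∑ b ∈ range K, β * m * W ^ (-(s : ℝ)⁻¹) := by
        calc (m : ℝ) = ∑ b ∈ range K,
              ((univ.filter (fun i : Fin m => col (A i) = b)).card : ℝ) := by
              exact_mod_cast hsum
          _ < ∑ b ∈ range K, β * m * W ^ (-(s : ℝ)⁻¹) :=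
              sum_lt_sum_of_nonempty ⟨0, mem_range.2 hKpos⟩ hcon
      rw [sum_const, card_range, nsmul_eq_mul] at h1
      have h2 : (K : ℝ) * (β * m * W ^ (-(s : ℝ)⁻¹)) ≤
          (β⁻¹ * W ^ ((s : ℝ)⁻¹)) * (β * m * W ^ (-(s : ℝ)⁻¹)) :=
        mul_le_mul_of_nonneg_right hKW (by positivity)
      have h3 : (β⁻¹ * W ^ ((s : ℝ)⁻¹)) * (β * m * W ^ (-(s : ℝ)⁻¹)) = m := by
        rw [Real.rpow_neg (by positivity)]
        field_simp
      linarith
    obtain ⟨b, -, hb⟩ := hclass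
    have hrb : r ≤ (univ.filter (fun i : Fin m => col (A i) = b)).card :=
      Nat.ceil_le.2 hb
    obtain ⟨I, hI, hIc⟩ := exists_subset_card_eq hrb
    refine ⟨I, ?_, hIc⟩
    intro i hi j hj _
    have hi' := (mem_filter.1 (hI hi)).2
    have hj' := (mem_filter.1 (hI hj)).2
    by_cases hAA : A i = A j
    · rw [hAA, Finset.inter_self]
      have h2 := hA j
      have h3 : ε ≤ c := by
        refine hε.le.trans ?_
        calc c ^ (s + 1) ≤ c ^ 1 := pow_le_pow_of_le_one hc0.le hc1.le (by omega)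
          _ = c := pow_one c
      have h4 : ε * (n : ℝ) ≤ c * (n : ℝ) := mul_le_mul_of_nonneg_right h3 (by linarith)
      linarith
    · exact hcol2 (A i) (mem_image_of_mem A (mem_univ i)) (A j)
        (mem_image_of_mem A (mem_univ j)) hAA (hi'.trans hj'.symm)
  have h1 : r ≤ f n m c ε := (f_isGreatest (ε := ε) hn hc1).2 hmem
  calc β * m * W ^ (-(s : ℝ)⁻¹) ≤ (r : ℝ) := Nat.le_ceil _
    _ ≤ (f n m c ε : ℝ) := by exact_mod_cast h1

theorem upper {ε : ℝ} (hε : 0 < ε) (hε1 : ε ≤ 1) :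
    ∃ a : ℝ, 0 < a ∧ ∃ C : ℝ, 0 < C ∧ ∀ c : ℝ, 0 < c → c ≤ 1 / 2 → ∀ n m : ℕ, 1 ≤ n → 1 ≤ m →
      (f n m c ε : ℝ) ≤ C * m * (min (m : ℝ) (2 ^ n)) ^ (-a) := by
  classical
  obtain ⟨a, ha, C, hC, hfam⟩ := Helper297.Family.family hε hε1
  refine ⟨a, ha, C, hC, ?_⟩
  intro c hc0 hc n m hn hm
  have hnR : (1 : ℝ) ≤ (n : ℝ) := by exact_mod_cast hn
  obtain ⟨A, hA, hI⟩ := hfam n m hn hm
  obtain ⟨I, hI1, hI2⟩ := (f_isGreatest (m := m) (ε := ε) hn (by linarith : c < 1)).1 A (by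
    intro k
    have := hA k
    have h2 : c * (n : ℝ) ≤ 1 / 2 * (n : ℝ) := mul_le_mul_of_nonneg_right hc (by linarith)
    linarith)
  rw [← hI2]
  exact hI I (fun i hi j hj hij => (hI1 i hi j hj hij).le)

/-- **Main theorem.** Let `0 < c ≤ 1/2`.

(0) `f n m c ε` is the largest `r` such that every sequence of `m` subsets of an `n`-set, each with
more than `c n` elements, has an `ε`-intersecting index set of size `r`.

(1) For every integer `s ≥ 1` and every `0 < ε < c ^ (s + 1)` there are `a, C > 0` with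
`C⁻¹ · m · min(m, 2^n) ^ (-1/s) ≤ f(n,m,c,ε) ≤ C · m · min(m, 2^n) ^ (-a)` for all `n, m ≥ 1`.

(2) For every `0 < ε < c ^ 3` there is `η > 0` with `f(n,n,c,ε) > η n ^ (1/2)` for all `n ≥ 1`.

(3) For every `0 < ε ≤ 1` there is no `η > 0` with `f(n,m,c,ε) ≥ η m` for all `1 ≤ m < n`. -/
theorem result (c : ℝ) (hc0 : 0 < c) (hc : c ≤ 1 / 2) :
    (∀ n m : ℕ, 1 ≤ n → ∀ ε : ℝ, IsGreatest (sizes n m c ε) (f n m c ε)) ∧
    (∀ s : ℕ, 1 ≤ s → ∀ ε : ℝ, 0 < ε → ε < c ^ (s + 1) →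
      ∃ a : ℝ, 0 < a ∧ ∃ C : ℝ, 0 < C ∧ ∀ n m : ℕ, 1 ≤ n → 1 ≤ m →
        C⁻¹ * m * (min (m : ℝ) (2 ^ n)) ^ (-(1 / (s : ℝ))) ≤ (f n m c ε : ℝ) ∧
        (f n m c ε : ℝ) ≤ C * m * (min (m : ℝ) (2 ^ n)) ^ (-a)) ∧
    (∀ ε : ℝ, 0 < ε → ε < c ^ 3 → ∃ η : ℝ, 0 < η ∧ ∀ n : ℕ, 1 ≤ n →
      η * (n : ℝ) ^ (1 / 2 : ℝ) < (f n n c ε : ℝ)) ∧
    (∀ ε : ℝ, 0 < ε → ε ≤ 1 → ¬ ∃ η : ℝ, 0 < η ∧ ∀ n m : ℕ, 1 ≤ m → m < n →
      η * (m : ℝ) ≤ (f n m c ε : ℝ)) := by
  have hc1 : c < 1 := by linarith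
  refine ⟨fun n m hn ε => f_isGreatest hn hc1, ?_, ?_, ?_⟩
  · intro s hs ε hε hεle
    have hε1 : ε ≤ 1 := hεle.le.trans (pow_le_one₀ hc0.le hc1.le)
    obtain ⟨a, ha, C₁, hC₁, hup⟩ := upper hε hε1
    have hsR : (1 : ℝ) ≤ (s : ℝ) := by exact_mod_cast hs
    set β : ℝ := c / 4 * (s : ℝ)⁻¹ with hβ
    have hβpos : 0 < β := by positivity
    refine ⟨a, ha, max C₁ β⁻¹, lt_max_of_lt_left hC₁, ?_⟩
    intro n m hn hm
    have hmR : (1 : ℝ) ≤ (m : ℝ) := by exact_mod_cast hm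
    have hW1 : 1 ≤ min (m : ℝ) (2 ^ n) := le_min hmR (one_le_pow₀ (by norm_num))
    constructor
    · refine le_trans ?_ (lower hc0 hc1 hs hεle hn hm)
      rw [one_div]
      apply mul_le_mul_of_nonneg_right _ (by positivity)
      apply mul_le_mul_of_nonneg_right _ (by positivity)
      calc (max C₁ β⁻¹)⁻¹ ≤ (β⁻¹)⁻¹ := inv_anti₀ (by positivity) (le_max_right _ _)
        _ = β := inv_inv β
    · refine (hup c hc0 hc n m hn hm).trans ?_
      apply mul_le_mul_of_nonneg_right _ (by positivity)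
      apply mul_le_mul_of_nonneg_right (le_max_left _ _) (by positivity)
  · intro ε hε hεle
    refine ⟨c / 16, by positivity, ?_⟩
    intro n hn
    have hnR : (1 : ℝ) ≤ (n : ℝ) := by exact_mod_cast hn
    have h := lower (s := 2) hc0 hc1 (by norm_num) hεle hn hn
    have hmin : min (n : ℝ) (2 ^ n) = n := by
      apply min_eq_left
      exact_mod_cast (Nat.lt_two_pow_self (n := n)).le
    rw [hmin] at h
    have h2 : (n : ℝ) * (n : ℝ) ^ (-((2 : ℕ) : ℝ)⁻¹) = (n : ℝ) ^ (1 / 2 : ℝ) := by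
      have h3 : (n : ℝ) * (n : ℝ) ^ (-((2 : ℕ) : ℝ)⁻¹) =
          (n : ℝ) ^ (1 : ℝ) * (n : ℝ) ^ (-((2 : ℕ) : ℝ)⁻¹) := by rw [Real.rpow_one]
      rw [h3, ← Real.rpow_add (by linarith)]
      congr 1
      push_cast
      norm_num
    rw [mul_assoc, h2] at h
    have hpos : 0 < (n : ℝ) ^ (1 / 2 : ℝ) := by positivity
    have h4 : c / 16 * (n : ℝ) ^ (1 / 2 : ℝ) < c / 4 * ((2 : ℕ) : ℝ)⁻¹ * (n : ℝ) ^ (1 / 2 : ℝ) := by
      apply mul_lt_mul_of_pos_right _ hpos
      push_cast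
      linarith
    linarith
  · rintro ε hε hε1 ⟨η, hη, hall⟩
    obtain ⟨a, ha, C, hC, hup⟩ := upper hε hε1
    -- choose `m` with `C m ^ (-a) < η`
    have hlim : Filter.Tendsto (fun m : ℕ => C * (m : ℝ) ^ (-a)) Filter.atTop (nhds (C * 0)) :=
      ((tendsto_rpow_neg_atTop ha).comp tendsto_natCast_atTop_atTop).const_mul C
    rw [mul_zero] at hlim
    obtain ⟨m, hm1, hm2⟩ := ((hlim.eventually (gt_mem_nhds hη)).and
      (Filter.eventually_ge_atTop 1)).exists
    have hmR : (1 : ℝ) ≤ (m : ℝ) := by exact_mod_cast hm2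
    have h1 := hall (m + 1) m hm2 (Nat.lt_succ_self m)
    have h2 := hup c hc0 hc (m + 1) m (by omega) hm2
    have hmin : min (m : ℝ) (2 ^ (m + 1)) = m := by
      apply min_eq_left
      have : m ≤ 2 ^ (m + 1) := (Nat.lt_two_pow_self (n := m)).le.trans
        (Nat.pow_le_pow_right (by norm_num) (by omega))
      exact_mod_cast this
    rw [hmin] at h2
    have h3 : C * m * (m : ℝ) ^ (-a) = m * (C * (m : ℝ) ^ (-a)) := by ring
    have h4 : (m : ℝ) * (C * (m : ℝ) ^ (-a)) < m * η :=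
      mul_lt_mul_of_pos_left hm1 (by linarith)
    linarith

end Pool.Agent.Results.MP_cecf76_co.Growth
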